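import Pool.Agent.helper32.PN.Spec

/-!
# Row pn:EXC1: three exceptional types, by computation
-/

set_option autoImplicit false

namespace Pool.Agent.PN

open Module Polynomial Pool.Agent.helper27.PC

/-! ## Encoded states -/

/-- encoded states: masks of the components `true`, `false`, potential -/
abbrev EXC1_E := ℕ × ℕ × ℤ

def EXC1_mk (e : EXC1_E) (u : Bool) : ℕ := bif u then e.1 else e.2.1

def EXC1_upd (e : EXC1_E) (u : Bool) (p c : ℕ) (dv : ℤ) : EXC1_E :=
  bif u then (e.1 ^^^ 2 ^ p ^^^ 2 ^ (p + c), e.2.1, e.2.2 + dv)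
  else (e.1, e.2.1 ^^^ 2 ^ p ^^^ 2 ^ (p + c), e.2.2 + dv)

def EXC1_dv (t : Bool) (K c p : ℕ) (u : Bool) : ℤ :=
  (c : ℤ) * (2 * (p : ℤ) + c + 1 - 2 * K + 2 * (tb t u : ℤ))

def EXC1_ad (e : EXC1_E) (u : Bool) (p c : ℕ) : Bool :=
  (EXC1_mk e u).testBit p && !(EXC1_mk e u).testBit (p + c)

def EXC1_step (t : Bool) (K N : ℕ) (e : EXC1_E) : List EXC1_E :=
  [true, false].flatMap fun u => (List.range N).flatMap fun p =>
    bif EXC1_ad e u p 1 then [EXC1_upd e u p 1 (EXC1_dv t K 1 p u)] else []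

def EXC1_L (t s : Bool) (K N : ℕ) : ℕ → List EXC1_E
  | 0 => [(2 ^ (bif s then K + 1 else K) - 1, 2 ^ (bif s then K else K + 1) - 1, 0)]
  | i + 1 => (EXC1_L t s K N i).flatMap (EXC1_step t K N)

def EXC1_Rel (t s : Bool) (K : ℕ) (e : EXC1_E) (T : St) : Prop :=
  (∀ u p, (u, p) ∈ T ↔ (EXC1_mk e u).testBit p = true) ∧ e.2.2 = pt t K T - pt t K (base s K)

theorem EXC1_mk_upd (e : EXC1_E) (u : Bool) (p c : ℕ) (dv : ℤ) (v : Bool) :
    EXC1_mk (EXC1_upd e u p c dv) v =
      if v = u then EXC1_mk e u ^^^ 2 ^ p ^^^ 2 ^ (p + c) else EXC1_mk e v := by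
  cases u <;> cases v <;> rfl

theorem EXC1_upd_val (e : EXC1_E) (u : Bool) (p c : ℕ) (dv : ℤ) :
    (EXC1_upd e u p c dv).2.2 = e.2.2 + dv := by
  cases u <;> rfl

theorem EXC1_rel_ad {t s : Bool} {K : ℕ} {e : EXC1_E} {T : St} (h : EXC1_Rel t s K e T) (u : Bool)
    (p c : ℕ) : (u, p) ∈ addable c T ↔ EXC1_ad e u p c = true := by
  unfold addable up EXC1_ad
  rw [Finset.mem_filter, h.1, h.1, Bool.and_eq_true, Bool.not_eq_true', Bool.not_eq_true]

theorem EXC1_rel_upd (hPTM : PTM_stmt) {t s : Bool} {K : ℕ} {e : EXC1_E} {T : St}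
    (h : EXC1_Rel t s K e T) (u : Bool) (p c : ℕ) (hc : 1 ≤ c) (ha : (u, p) ∈ addable c T) :
    EXC1_Rel t s K (EXC1_upd e u p c (EXC1_dv t K c p u)) (move c T (u, p)) := by
  have hb := (EXC1_rel_ad h u p c).1 ha
  unfold EXC1_ad at hb
  rw [Bool.and_eq_true, Bool.not_eq_true'] at hb
  refine ⟨?_, ?_⟩
  · intro v q
    unfold move up
    rw [Finset.mem_insert, Finset.mem_erase, h.1, EXC1_mk_upd]
    by_cases hv : v = u
    · subst hv
      rw [if_pos rfl, Nat.testBit_xor, Nat.testBit_xor, Nat.testBit_two_pow, Nat.testBit_two_pow]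
      simp only [Prod.mk.injEq, true_and, ne_eq]
      by_cases h1 : q = p
      · subst h1
        have hne : ¬ (c = 0) := by omega
        simp [hb.1, hne]
      · by_cases h2 : q = p + c
        · subst h2
          have h3 : ¬ (p = p + c) := by omega
          have h4 : ¬ (c = 0) := by omega
          simp [hb.2, h4]
        · have h3 : ¬ (p = q) := fun h => h1 h.symm
          have h4 : ¬ (p + c = q) := fun h => h2 h.symm
          simp [h1, h2, h3, h4]
    · rw [if_neg hv]
      simp only [Prod.mk.injEq, hv, false_and, ne_eq, not_false_eq_true, true_and, false_or]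
  · rw [EXC1_upd_val, hPTM t K c T (u, p) hc ha, h.2]
    unfold EXC1_dv
    ring

theorem EXC1_rel_base (t s : Bool) (K : ℕ) :
    EXC1_Rel t s K (2 ^ (bif s then K + 1 else K) - 1, 2 ^ (bif s then K else K + 1) - 1, 0)
      (base s K) := by
  refine ⟨?_, by simp⟩
  intro u p
  unfold base vac EXC1_mk
  rw [Finset.mem_insert, Finset.mem_product, Finset.mem_range, Prod.mk.injEq]
  cases u <;> cases s <;>
    simp only [cond_true, cond_false, Nat.testBit_two_pow_sub_one, decide_eq_true_eq,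
      Finset.mem_univ, true_and, Bool.false_eq_true, Bool.true_eq_false, false_and, false_or] <;> omega

/-- the masks are small -/
def EXC1_small (t s : Bool) (K N J : ℕ) : Bool :=
  (List.range J).all fun i => (EXC1_L t s K N i).all fun e =>
    Nat.blt e.1 (2 ^ N) && Nat.blt e.2.1 (2 ^ N)

theorem EXC1_small_lt {t s : Bool} {K N J : ℕ} (h : EXC1_small t s K N J = true) {i : ℕ}
    (hi : i < J) {e : EXC1_E} (he : e ∈ EXC1_L t s K N i) (u : Bool) (p : ℕ)
    (hp : (EXC1_mk e u).testBit p = true) : p < N := by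
  unfold EXC1_small at h
  rw [List.all_eq_true] at h
  have h1 := h i (List.mem_range.2 hi)
  rw [List.all_eq_true] at h1
  have h2 := h1 e he
  rw [Bool.and_eq_true, Nat.blt_eq, Nat.blt_eq] at h2
  have h3 : EXC1_mk e u < 2 ^ N := by
    cases u
    · exact h2.2
    · exact h2.1
  by_contra hcon
  have h4 : (EXC1_mk e u).testBit p = false :=
    Nat.testBit_lt_two_pow (lt_of_lt_of_le h3 (Nat.pow_le_pow_right (by norm_num) (by omega)))
  rw [h4] at hp
  exact absurd hp (by simp)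

theorem EXC1_mem_step (t : Bool) (K N : ℕ) (e e' : EXC1_E) :
    e' ∈ EXC1_step t K N e ↔ ∃ u p, p < N ∧ EXC1_ad e u p 1 = true ∧
      e' = EXC1_upd e u p 1 (EXC1_dv t K 1 p u) := by
  unfold EXC1_step
  rw [List.mem_flatMap]
  constructor
  · rintro ⟨u, hu, h⟩
    rw [List.mem_flatMap] at h
    obtain ⟨p, hp, h⟩ := h
    by_cases ha : EXC1_ad e u p 1 = true
    · rw [ha, cond_true, List.mem_singleton] at h
      exact ⟨u, p, List.mem_range.1 hp, ha, h⟩
    · rw [Bool.not_eq_true] at ha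
      rw [ha, cond_false] at h
      exact absurd h (by simp)
  · rintro ⟨u, p, hp, ha, h⟩
    refine ⟨u, by cases u <;> simp, ?_⟩
    rw [List.mem_flatMap]
    refine ⟨p, List.mem_range.2 hp, ?_⟩
    rw [ha, cond_true, List.mem_singleton]
    exact h

theorem EXC1_sound (hHOL : HOL_stmt) (hPTM : PTM_stmt) (t s : Bool) (K N : ℕ) :
    ∀ i, ∀ e ∈ EXC1_L t s K N i, ∃ T ∈ ends i (base s K), EXC1_Rel t s K e T := by
  intro i
  induction i with
  | zero =>
    intro e he
    unfold EXC1_L at he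
    rw [List.mem_singleton] at he
    subst he
    refine ⟨base s K, ?_, EXC1_rel_base t s K⟩
    unfold ends
    exact Finset.mem_singleton_self _
  | succ i ih =>
    intro e' he'
    unfold EXC1_L at he'
    rw [List.mem_flatMap] at he'
    obtain ⟨e, he, h⟩ := he'
    obtain ⟨T, hT, hR⟩ := ih e he
    rw [EXC1_mem_step] at h
    obtain ⟨u, p, hp, ha, rfl⟩ := h
    have had := (EXC1_rel_ad hR u p 1).2 ha
    have h4 := (hHOL s K i T hT).2.2.2 1 le_rfl (u, p) had
    exact ⟨move 1 T (u, p), h4.1, EXC1_rel_upd hPTM hR u p 1 le_rfl had⟩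

theorem EXC1_complete (hNPR : NPR_stmt) (hHOL : HOL_stmt) (hPTM : PTM_stmt) (t s : Bool)
    (K N J : ℕ) (hsm : EXC1_small t s K N J = true) :
    ∀ i, i ≤ J → ∀ T ∈ ends i (base s K), ∃ e ∈ EXC1_L t s K N i, EXC1_Rel t s K e T := by
  intro i
  induction i with
  | zero =>
    intro _ T hT
    unfold ends at hT
    rw [Finset.mem_singleton] at hT
    subst hT
    refine ⟨_, ?_, EXC1_rel_base t s K⟩
    unfold EXC1_L
    exact List.mem_singleton_self _
  | succ i ih =>
    intro hi T' hT'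
    obtain ⟨y, hy, hT⟩ := ((hNPR i (base s K) T').2.1).1 hT'
    obtain ⟨e, he, hR⟩ := ih (by omega) _ hT
    have h3 := (hHOL s K (i + 1) T' hT').2.2.1 1 le_rfl y hy
    have had := h3.2.2.1
    have hmv := h3.2.2.2.1
    have ha := (EXC1_rel_ad hR (dn 1 y).1 (dn 1 y).2 1).1 had
    have hR' := EXC1_rel_upd hPTM hR (dn 1 y).1 (dn 1 y).2 1 le_rfl had
    have hp : (dn 1 y).2 < N := by
      refine EXC1_small_lt hsm (show i < J by omega) he (dn 1 y).1 _ ?_
      unfold EXC1_ad at ha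
      rw [Bool.and_eq_true] at ha
      exact ha.1
    refine ⟨EXC1_upd e (dn 1 y).1 (dn 1 y).2 1 (EXC1_dv t K 1 (dn 1 y).2 (dn 1 y).1), ?_, ?_⟩
    · unfold EXC1_L
      rw [List.mem_flatMap]
      refine ⟨e, he, ?_⟩
      rw [EXC1_mem_step]
      exact ⟨(dn 1 y).1, (dn 1 y).2, hp, ha, rfl⟩
    · have e1 : move 1 (rem 1 T' y) ((dn 1 y).1, (dn 1 y).2) = T' := hmv
      rw [e1] at hR'
      exact hR'

/-! ## The number of beads in between -/

def EXC1_cnt (a p : ℕ) : ℕ → ℕ
  | 0 => 0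
  | n + 1 => EXC1_cnt a p n + (bif a.testBit (p + 1 + n) then 1 else 0)

theorem EXC1_cnt_eq {t s : Bool} {K : ℕ} {e : EXC1_E} {T : St} (h : EXC1_Rel t s K e T) (u : Bool)
    (p : ℕ) : ∀ n : ℕ, cnt T (u, p) (n + 1) = EXC1_cnt (EXC1_mk e u) p n := by
  intro n
  induction n with
  | zero =>
    unfold cnt EXC1_cnt
    rw [Finset.card_eq_zero, Finset.filter_eq_empty_iff]
    intro y _ hy
    have h1 := hy.2.1
    have h2 := hy.2.2
    simp only at h1 h2
    omega
  | succ n ih =>
    have key : T.filter (fun y => y.1 = (u, p).1 ∧ (u, p).2 < y.2 ∧ y.2 < (u, p).2 + (n + 1 + 1)) =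
        T.filter (fun y => y.1 = (u, p).1 ∧ (u, p).2 < y.2 ∧ y.2 < (u, p).2 + (n + 1)) ∪
          (bif (EXC1_mk e u).testBit (p + 1 + n) then {(u, p + 1 + n)} else ∅) := by
      ext ⟨v, q⟩
      rw [Finset.mem_union, Finset.mem_filter, Finset.mem_filter]
      cases hb : (EXC1_mk e u).testBit (p + 1 + n)
      · simp only [cond_false, Finset.notMem_empty, or_false]
        constructor
        · rintro ⟨h1, h2, h3, h4⟩
          refine ⟨h1, h2, h3, ?_⟩
          by_contra hcon
          have hq : q = p + 1 + n := by omega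
          subst hq
          subst h2
          rw [h.1, hb] at h1
          exact absurd h1 (by simp)
        · rintro ⟨h1, h2, h3, h4⟩
          exact ⟨h1, h2, h3, by omega⟩
      · simp only [cond_true, Finset.mem_singleton, Prod.mk.injEq]
        constructor
        · rintro ⟨h1, h2, h3, h4⟩
          by_cases hq : q = p + 1 + n
          · exact Or.inr ⟨h2, hq⟩
          · exact Or.inl ⟨h1, h2, h3, by omega⟩
        · rintro (⟨h1, h2, h3, h4⟩ | ⟨h1, h2⟩)
          · exact ⟨h1, h2, h3, by omega⟩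
          · subst h1
            subst h2
            exact ⟨(h.1 v _).2 hb, rfl, by omega, by omega⟩
    unfold cnt at ih ⊢
    rw [key, Finset.card_union_of_disjoint, ih]
    · rw [EXC1_cnt]
      cases (EXC1_mk e u).testBit (p + 1 + n)
      · rw [cond_false, cond_false, Finset.card_empty]
      · rw [cond_true, cond_true, Finset.card_singleton]
    · rw [Finset.disjoint_left]
      intro x hx hx2
      cases hb : (EXC1_mk e u).testBit (p + 1 + n)
      · rw [hb, cond_false] at hx2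
        exact absurd hx2 (Finset.notMem_empty _)
      · rw [hb, cond_true, Finset.mem_singleton] at hx2
        rw [hx2, Finset.mem_filter] at hx
        have h1 := hx.2.2.2
        simp only at h1
        omega

/-! ## The checks -/

def EXC1_hole (t s : Bool) (K N r J : ℕ) (z : ℤ) : Bool :=
  (EXC1_L t s K N J).all fun e =>
    !decide (-(J : ℤ) * ((J : ℤ) + 1) + e.2.2 + 2 * (r : ℤ) * (J : ℤ) = z)

def EXC1_off (t : Bool) (K r J c j ds : ℕ) (v : ℤ) (u : Bool) (p : ℕ) : ℤ :=
  (-(((ip J c + c : ℕ) : ℤ)) * (((ip J c + c : ℕ) : ℤ) + 1) + (v + EXC1_dv t K c p u) +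
      2 * (r : ℤ) * ((ip J c + c : ℕ) : ℤ)) +
    (-((ip J c : ℕ) : ℤ) * (((ip J c : ℕ) : ℤ) + 1) + v +
      2 * ((r : ℤ) - 1 - (j : ℤ)) * ((ip J c : ℕ) : ℤ) +
      2 * ((ds : ℤ) + ((p : ℤ) + (c : ℤ) + (tb t u : ℤ)) - (K : ℤ)) +
      2 * (j : ℤ) * ((ip J c + c : ℕ) : ℤ))

def EXC1_terms (t s : Bool) (K N : ℕ) (ρ : List ℕ) (J : ℕ) (z : ℤ) : Bool :=
  (List.range ρ.length).all fun j => (EXC1_L t s K N (ip J (ρ.getD j 0))).all fun e =>
    [true, false].all fun u => (List.range N).all fun p =>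
      !EXC1_ad e u p (ρ.getD j 0) ||
        !decide (EXC1_off t K ρ.length J (ρ.getD j 0) j (ρ.drop (j + 1)).sum e.2.2 u p = 2 * z) ||
          decide (EXC1_cnt (EXC1_mk e u) p (ρ.getD j 0 - 1) % 2 = 1)

def EXC1_ex (t s : Bool) (K N : ℕ) (ρ : List ℕ) (J : ℕ) (z : ℤ) : Bool :=
  (List.range ρ.length).any fun j => Nat.blt (ρ.getD j 0) (2 * J) &&
    (EXC1_L t s K N (ip J (ρ.getD j 0))).any fun e =>
      [true, false].any fun u => (List.range N).any fun p =>
        EXC1_ad e u p (ρ.getD j 0) &&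
          decide (EXC1_off t K ρ.length J (ρ.getD j 0) j (ρ.drop (j + 1)).sum e.2.2 u p = 2 * z)

theorem EXC1_off_eq (hPTM : PTM_stmt) {t s : Bool} {K : ℕ} {e : EXC1_E} {T : St}
    (h : EXC1_Rel t s K e T) (ρ : List ℕ) (J c j : ℕ) (l : Lab) (hc : 1 ≤ c)
    (ha : l ∈ addable c T) :
    off t s K ρ j (ip J c + c) (ip J c) (move c T l) T (l.2 + c + tb t l.1) =
      EXC1_off t K ρ.length J c j (ρ.drop (j + 1)).sum e.2.2 l.1 l.2 := by
  unfold off o0 EXC1_off
  rw [hPTM t K c T l hc ha, h.2]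
  unfold EXC1_dv
  push_cast
  ring

theorem EXC1_neg (n a b f g : ℕ) (hn : n % 2 = 1) (ha : a ≠ 0) (hb : b ≠ 0) :
    (-1 : ℚ) ^ n * ((a : ℚ) * (b : ℚ)) / (((f.factorial : ℕ) : ℚ) * ((g.factorial : ℕ) : ℚ)) < 0 := by
  have h1 : (-1 : ℚ) ^ n = -1 := Odd.neg_one_pow (Nat.odd_iff.2 hn)
  have h2 : (0 : ℚ) < a := by exact_mod_cast Nat.pos_of_ne_zero ha
  have h3 : (0 : ℚ) < b := by exact_mod_cast Nat.pos_of_ne_zero hb
  have h4 : (0 : ℚ) < (f.factorial : ℕ) := by exact_mod_cast Nat.factorial_pos f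
  have h5 : (0 : ℚ) < (g.factorial : ℕ) := by exact_mod_cast Nat.factorial_pos g
  rw [h1, neg_one_mul, neg_div]
  have h6 : (0 : ℚ) < (a : ℚ) * (b : ℚ) /
      (((f.factorial : ℕ) : ℚ) * ((g.factorial : ℕ) : ℚ)) := by positivity
  linarith

theorem EXC1_main (hCRIT : CRIT_stmt) (hNPR : NPR_stmt) (hHOL : HOL_stmt) (hPTM : PTM_stmt)
    (t : Bool) (K N : ℕ) (ρ : List ℕ) (J : ℕ) (z : ℤ) (hρ : ∀ a ∈ ρ, Odd a) (hJ : 1 ≤ J)
    (hK : J + ρ.sum + 2 ≤ K)
    (hsm : ∀ s, (t && s) = false → EXC1_small t s K N J = true)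
    (hhole : ∀ s, (t && s) = false → EXC1_hole t s K N ρ.length J z = true)
    (hterms : ∀ s, (t && s) = false → EXC1_terms t s K N ρ J z = true)
    (hex : ∃ s, (t && s) = false ∧ EXC1_ex t s K N ρ J z = true) : Neg t ρ.reverse := by
  have hodd : ∀ j, j < ρ.length → Odd (ρ.getD j 0) := by
    intro j hj
    rw [List.getD_eq_getElem _ _ hj]
    exact hρ _ (List.getElem_mem hj)
  refine hCRIT t K ρ J z hρ hJ hK ?_ ?_
  · intro s hs T hT
    have hs' : (t && s) = false := by simpa using hs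
    obtain ⟨e, he, hR⟩ := EXC1_complete hNPR hHOL hPTM t s K N J (hsm s hs') J le_rfl T hT
    have h := hhole s hs'
    unfold EXC1_hole at h
    rw [List.all_eq_true] at h
    have h1 := h e he
    rw [Bool.not_eq_true', decide_eq_false_iff_not] at h1
    unfold o0
    rw [← hR.2]
    exact h1
  · -- the inner terms
    have hterm : ∀ s, (t && s) = false → ∀ j < ρ.length, ρ.getD j 0 < 2 * J →
        ∀ T ∈ ends (ip J (ρ.getD j 0)) (base s K), ∀ l ∈ addable (ρ.getD j 0) T,
        off t s K ρ j (ip J (ρ.getD j 0) + ρ.getD j 0) (ip J (ρ.getD j 0))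
          (move (ρ.getD j 0) T l) T (l.2 + ρ.getD j 0 + tb t l.1) = 2 * z →
        (-1 : ℚ) ^ cnt T l (ρ.getD j 0) *
          (np (ip J (ρ.getD j 0) + ρ.getD j 0) (base s K) (move (ρ.getD j 0) T l) *
            np (ip J (ρ.getD j 0)) (base s K) T) /
          ((ip J (ρ.getD j 0) + ρ.getD j 0).factorial * (ip J (ρ.getD j 0)).factorial) < 0 := by
      intro s hs j hj hjJ T hT l hl hoff
      have hc := hodd j hj
      set c := ρ.getD j 0 with hcdef
      have hc1 : 1 ≤ c := hc.pos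
      have hip : ip J c < J := by
        unfold ip
        omega
      obtain ⟨e, he, hR⟩ := EXC1_complete hNPR hHOL hPTM t s K N J (hsm s hs) (ip J c) hip.le T hT
      have had : EXC1_ad e l.1 l.2 c = true := (EXC1_rel_ad hR l.1 l.2 c).1 hl
      have hpN : l.2 < N := by
        refine EXC1_small_lt (hsm s hs) hip he l.1 l.2 ?_
        unfold EXC1_ad at had
        rw [Bool.and_eq_true] at had
        exact had.1
      have hch := hterms s hs
      unfold EXC1_terms at hch
      rw [List.all_eq_true] at hch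
      have h1 := hch j (List.mem_range.2 hj)
      rw [← hcdef, List.all_eq_true] at h1
      have h2 := h1 e he
      rw [List.all_eq_true] at h2
      have h3 := h2 l.1 (by cases l.1 <;> simp)
      rw [List.all_eq_true] at h3
      have h4 := h3 l.2 (List.mem_range.2 hpN)
      rw [EXC1_off_eq hPTM hR ρ J c j l hc1 hl] at hoff
      rw [had, Bool.not_true, Bool.false_or, hoff, decide_eq_true rfl, Bool.not_true,
        Bool.false_or, decide_eq_true_eq] at h4
      have h5 : cnt T l c = EXC1_cnt (EXC1_mk e l.1) l.2 (c - 1) := by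
        have h6 := EXC1_cnt_eq hR l.1 l.2 (c - 1)
        rw [Nat.sub_add_cancel hc1] at h6
        exact h6
      have h4' : cnt T l c % 2 = 1 := by
        rw [h5]
        exact h4
      have hT' := ((hNPR (ip J c) (base s K) T).2.2).1 hT
      have hM := (hHOL s K (ip J c) T hT).2.2.2 c hc1 l hl
      have hM' := ((hNPR (ip J c + c) (base s K) (move c T l)).2.2).1 hM.1
      exact EXC1_neg _ _ _ _ _ h4' hM' hT'
    have hin : ∀ s, (t && s) = false → ∀ j < ρ.length, ρ.getD j 0 < 2 * J →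
        ∀ T ∈ ends (ip J (ρ.getD j 0)) (base s K), ∀ l ∈ addable (ρ.getD j 0) T,
        (if off t s K ρ j (ip J (ρ.getD j 0) + ρ.getD j 0) (ip J (ρ.getD j 0))
            (move (ρ.getD j 0) T l) T (l.2 + ρ.getD j 0 + tb t l.1) = 2 * z then
          (-1 : ℚ) ^ cnt T l (ρ.getD j 0) *
          (np (ip J (ρ.getD j 0) + ρ.getD j 0) (base s K) (move (ρ.getD j 0) T l) *
            np (ip J (ρ.getD j 0)) (base s K) T) /
          ((ip J (ρ.getD j 0) + ρ.getD j 0).factorial * (ip J (ρ.getD j 0)).factorial) else 0) ≤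
          0 := by
      intro s hs j hj hjJ T hT l hl
      split_ifs with h
      · exact (hterm s hs j hj hjJ T hT l hl h).le
      · exact le_rfl
    obtain ⟨s₀, hs₀, hex⟩ := hex
    unfold EXC1_ex at hex
    rw [List.any_eq_true] at hex
    obtain ⟨j₀, hj₀, hex⟩ := hex
    rw [List.mem_range] at hj₀
    rw [Bool.and_eq_true, Nat.blt_eq, List.any_eq_true] at hex
    obtain ⟨hjJ₀, e₀, he₀, hex⟩ := hex
    rw [List.any_eq_true] at hex
    obtain ⟨u₀, -, hex⟩ := hex
    rw [List.any_eq_true] at hex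
    obtain ⟨p₀, -, hex⟩ := hex
    rw [Bool.and_eq_true, decide_eq_true_eq] at hex
    obtain ⟨T₀, hT₀, hR₀⟩ := EXC1_sound hHOL hPTM t s₀ K N _ e₀ he₀
    have hl₀ : (u₀, p₀) ∈ addable (ρ.getD j₀ 0) T₀ := (EXC1_rel_ad hR₀ u₀ p₀ _).2 hex.1
    have hoff₀ := hex.2
    rw [← EXC1_off_eq hPTM hR₀ ρ J _ j₀ (u₀, p₀) (hodd j₀ hj₀).pos hl₀] at hoff₀
    unfold Lq
    have hsum : (∑ s : Bool, if (t && s) = true then (0 : ℚ) else
        ∑ j ∈ Finset.range ρ.length, if ρ.getD j 0 < 2 * J then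
          ∑ T ∈ ends (ip J (ρ.getD j 0)) (base s K), ∑ l ∈ addable (ρ.getD j 0) T,
            if off t s K ρ j (ip J (ρ.getD j 0) + ρ.getD j 0) (ip J (ρ.getD j 0))
                (move (ρ.getD j 0) T l) T (l.2 + ρ.getD j 0 + tb t l.1) = 2 * z then
              (-1 : ℚ) ^ cnt T l (ρ.getD j 0) *
                (np (ip J (ρ.getD j 0) + ρ.getD j 0) (base s K) (move (ρ.getD j 0) T l) *
                  np (ip J (ρ.getD j 0)) (base s K) T) /
                ((ip J (ρ.getD j 0) + ρ.getD j 0).factorial * (ip J (ρ.getD j 0)).factorial)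
            else 0
          else 0) < 0 := by
      refine Finset.sum_neg' ?_ ⟨s₀, Finset.mem_univ _, ?_⟩
      · intro s _
        split_ifs with hs
        · exact le_rfl
        · have hs' : (t && s) = false := by simpa using hs
          refine Finset.sum_nonpos fun j hj => ?_
          split_ifs with hjJ
          · exact Finset.sum_nonpos fun T hT => Finset.sum_nonpos fun l hl =>
              hin s hs' j (Finset.mem_range.1 hj) hjJ T hT l hl
          · exact le_rfl
      · rw [if_neg (by rw [hs₀]; simp)]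
        refine Finset.sum_neg' ?_ ⟨j₀, Finset.mem_range.2 hj₀, ?_⟩
        · intro j hj
          split_ifs with hjJ
          · exact Finset.sum_nonpos fun T hT => Finset.sum_nonpos fun l hl =>
              hin s₀ hs₀ j (Finset.mem_range.1 hj) hjJ T hT l hl
          · exact le_rfl
        · rw [if_pos hjJ₀]
          refine Finset.sum_neg' (fun T hT => Finset.sum_nonpos fun l hl =>
            hin s₀ hs₀ j₀ hj₀ hjJ₀ T hT l hl) ⟨T₀, hT₀, ?_⟩
          refine Finset.sum_neg' (fun l hl => hin s₀ hs₀ j₀ hj₀ hjJ₀ T₀ hT₀ l hl)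
            ⟨(u₀, p₀), hl₀, ?_⟩
          rw [if_pos hoff₀]
          exact hterm s₀ hs₀ j₀ hj₀ hjJ₀ T₀ hT₀ (u₀, p₀) hl₀ hoff₀
    linarith

/-- Row EXC1. -/
theorem EXC1 (hCRIT : CRIT_stmt) (hNPR : NPR_stmt) (hHOL : HOL_stmt) (hPTM : PTM_stmt) :
    EXC1_stmt := by
  refine ⟨?_, ?_, ?_⟩
  · have h := EXC1_main hCRIT hNPR hHOL hPTM true 12 22 [3, 3] 4 6 (by decide) (by norm_num)
      (by simp) (by decide +kernel) (by decide +kernel) (by decide +kernel) (by decide +kernel)
    exact h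
  · have h := EXC1_main hCRIT hNPR hHOL hPTM true 14 22 [5, 3] 4 6 (by decide) (by norm_num)
      (by simp) (by decide +kernel) (by decide +kernel) (by decide +kernel) (by decide +kernel)
    exact h
  · have h := EXC1_main hCRIT hNPR hHOL hPTM false 14 22 [3, 3] 6 (-10) (by decide) (by norm_num)
      (by simp) (by decide +kernel) (by decide +kernel) (by decide +kernel) (by decide +kernel)
    exact h

end Pool.Agent.PN
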