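import Pool.Agent.helper32.PN.Spec

/-!
# Row pn:HF: hooks
-/

set_option autoImplicit false

namespace Pool.Agent.PN

open Module Polynomial Pool.Agent.helper27.PC

/-- the top bead of the component `v` -/
def HF_t (s : Bool) (K : ℕ) (v : Bool) : ℕ := if v = s then K else K - 1

theorem HF_mem_base (s : Bool) (K : ℕ) (hK : 1 ≤ K) (v : Bool) (p : ℕ) :
    (v, p) ∈ base s K ↔ p ≤ HF_t s K v := by
  unfold base vac HF_t
  rw [Finset.mem_insert, Finset.mem_product, Finset.mem_range, Prod.mk.injEq]
  simp only [Finset.mem_univ, true_and]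
  split_ifs with h
  · constructor
    · rintro (h1 | h1)
      · omega
      · omega
    · intro h1
      by_cases h2 : p = K
      · exact Or.inl ⟨h, h2⟩
      · exact Or.inr (by omega)
  · constructor
    · rintro (h1 | h1)
      · exact absurd h1.1 h
      · omega
    · intro h1
      exact Or.inr (by omega)

theorem HF_hk (s u : Bool) (K b : ℕ) : hk s u K b = (u, HF_t s K u - b) := by
  unfold hk HF_t
  split_ifs <;> rfl

theorem HF_t_le (s u : Bool) (K : ℕ) : K ≤ HF_t s K u + 1 := by
  unfold HF_t
  split_ifs <;> omega

/-- the hook state -/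
def HF_S (s u : Bool) (K a b : ℕ) : St := move a (base s K) (hk s u K b)

theorem HF_mem (s u : Bool) (K a b : ℕ) (hb : b < a) (ha : a < K) (v : Bool) (p : ℕ) :
    (v, p) ∈ HF_S s u K a b ↔
      ((v = u ∧ p = HF_t s K u - b + a) ∨
        (¬(v = u ∧ p = HF_t s K u - b) ∧ p ≤ HF_t s K v)) := by
  unfold HF_S move up
  rw [HF_hk, Finset.mem_insert, Finset.mem_erase, HF_mem_base s K (by omega)]
  simp only [Prod.mk.injEq, ne_eq]

theorem HF_rem1 (s u : Bool) (K a b : ℕ) (hb : b < a + 1) (ha : a + 1 < K) (hb1 : 1 ≤ b) :
    rem 1 (HF_S s u K (a + 1) b) (u, HF_t s K u - b + 1) = HF_S s u K a (b - 1) := by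
  have ht := HF_t_le s u K
  ext ⟨v, p⟩
  unfold rem dn
  rw [Finset.mem_insert, Finset.mem_erase, HF_mem s u K (a + 1) b (by omega) (by omega),
    HF_mem s u K a (b - 1) (by omega) (by omega)]
  simp only [Prod.mk.injEq, ne_eq]
  by_cases hv : v = u
  · subst hv
    simp only [true_and]
    omega
  · simp only [hv, false_and, not_false_eq_true, true_and, false_or]

theorem HF_rem2 (s u : Bool) (K a b : ℕ) (hb : b < a) (ha : a + 1 < K) :
    rem 1 (HF_S s u K (a + 1) b) (u, HF_t s K u - b + (a + 1)) = HF_S s u K a b := by
  have ht := HF_t_le s u K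
  ext ⟨v, p⟩
  unfold rem dn
  rw [Finset.mem_insert, Finset.mem_erase, HF_mem s u K (a + 1) b (by omega) (by omega),
    HF_mem s u K a b (by omega) (by omega)]
  simp only [Prod.mk.injEq, ne_eq]
  by_cases hv : v = u
  · subst hv
    simp only [true_and]
    omega
  · simp only [hv, false_and, not_false_eq_true, true_and, false_or]

theorem HF_remv (s u : Bool) (K a b : ℕ) (hb : b < a + 1) (ha1 : 1 ≤ a) (ha : a + 1 < K) :
    remv 1 (HF_S s u K (a + 1) b) =
      (if 1 ≤ b then {(u, HF_t s K u - b + 1)} else ∅) ∪
        (if b < a then {(u, HF_t s K u - b + (a + 1))} else ∅) := by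
  have ht := HF_t_le s u K
  ext ⟨v, p⟩
  unfold remv dn
  rw [Finset.mem_filter, HF_mem s u K (a + 1) b hb (by omega),
    HF_mem s u K (a + 1) b hb (by omega), Finset.mem_union]
  by_cases hv : v = u
  · subst hv
    simp only [true_and]
    by_cases h1 : 1 ≤ b <;> by_cases h2 : b < a
    · simp only [h1, h2, if_true, Finset.mem_singleton, Prod.mk.injEq, true_and]
      omega
    · simp only [h1, h2, if_true, if_false, Finset.mem_singleton, Finset.notMem_empty,
        Prod.mk.injEq, true_and, or_false]
      omega
    · simp only [h1, h2, if_true, if_false, Finset.mem_singleton, Finset.notMem_empty,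
        Prod.mk.injEq, true_and, false_or]
      omega
    · omega
  · simp only [hv, false_and, not_false_eq_true, true_and, false_or]
    constructor
    · intro h
      omega
    · rintro (h | h)
      · split_ifs at h
        · rw [Finset.mem_singleton, Prod.mk.injEq] at h
          exact absurd h.1 hv
        · exact absurd h (Finset.notMem_empty _)
      · split_ifs at h
        · rw [Finset.mem_singleton, Prod.mk.injEq] at h
          exact absurd h.1 hv
        · exact absurd h (Finset.notMem_empty _)

theorem HF_base_case (hNPR : NPR_stmt) (s u : Bool) (K : ℕ) (hK : 1 < K) :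
    np 1 (base s K) (HF_S s u K 1 0) = 1 := by
  have ht := HF_t_le s u K
  have h1 : remv 1 (HF_S s u K 1 0) = {(u, HF_t s K u + 1)} := by
    ext ⟨v, p⟩
    unfold remv dn
    rw [Finset.mem_filter, HF_mem s u K 1 0 (by omega) (by omega),
      HF_mem s u K 1 0 (by omega) (by omega), Finset.mem_singleton, Prod.mk.injEq]
    by_cases hv : v = u
    · subst hv
      simp only [true_and]
      omega
    · simp only [hv, false_and, not_false_eq_true, true_and, false_or]
      constructor
      · intro h
        omega
      · intro h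
        exact h.elim
  have h2 : rem 1 (HF_S s u K 1 0) (u, HF_t s K u + 1) = base s K := by
    ext ⟨v, p⟩
    unfold rem dn
    rw [Finset.mem_insert, Finset.mem_erase, HF_mem s u K 1 0 (by omega) (by omega),
      HF_mem_base s K (by omega)]
    simp only [Prod.mk.injEq, ne_eq]
    by_cases hv : v = u
    · subst hv
      simp only [true_and]
      omega
    · simp only [hv, false_and, not_false_eq_true, true_and, false_or]
  rw [(hNPR 0 (base s K) (HF_S s u K 1 0)).1, h1, Finset.sum_singleton, h2]
  unfold np paths
  rw [if_pos rfl, Finset.card_singleton]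

theorem HF_np (hNPR : NPR_stmt) (s u : Bool) (K : ℕ) : ∀ a, 1 ≤ a → a < K → ∀ b, b < a →
    np a (base s K) (HF_S s u K a b) = (a - 1).choose b := by
  intro a ha1
  induction a, ha1 using Nat.le_induction with
  | base =>
    intro hK b hb
    have hb0 : b = 0 := by omega
    subst hb0
    rw [HF_base_case hNPR s u K hK]
    rfl
  | succ a ha1 ih =>
    intro hK b hb
    have ht := HF_t_le s u K
    rw [(hNPR a (base s K) (HF_S s u K (a + 1) b)).1, HF_remv s u K a b hb ha1 hK,
      Finset.sum_union ?_]
    · by_cases h1 : 1 ≤ b <;> by_cases h2 : b < a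
      · rw [if_pos h1, if_pos h2, Finset.sum_singleton, Finset.sum_singleton,
          HF_rem1 s u K a b (by omega) hK h1, HF_rem2 s u K a b h2 hK,
          ih (by omega) (b - 1) (by omega), ih (by omega) b h2]
        obtain ⟨b', rfl⟩ : ∃ b', b = b' + 1 := ⟨b - 1, by omega⟩
        obtain ⟨a', rfl⟩ : ∃ a', a = a' + 1 := ⟨a - 1, by omega⟩
        simp only [Nat.add_sub_cancel]
        exact (Nat.choose_succ_succ a' b').symm
      · rw [if_pos h1, if_neg h2, Finset.sum_singleton, Finset.sum_empty,
          HF_rem1 s u K a b (by omega) hK h1, ih (by omega) (b - 1) (by omega)]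
        have e : b = a := by omega
        subst e
        simp
      · rw [if_neg h1, if_pos h2, Finset.sum_singleton, Finset.sum_empty,
          HF_rem2 s u K a b h2 hK, ih (by omega) b h2]
        have e : b = 0 := by omega
        subst e
        simp
      · omega
    · rw [Finset.disjoint_left]
      intro x hx hx2
      split_ifs at hx hx2
      · rw [Finset.mem_singleton] at hx hx2
        rw [hx, Prod.mk.injEq] at hx2
        omega
      · exact absurd hx2 (Finset.notMem_empty _)
      · exact absurd hx (Finset.notMem_empty _)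
      · exact absurd hx (Finset.notMem_empty _)

/-- Row HF. -/
theorem HF (hNPR : NPR_stmt) : HF_stmt := by
  intro s K a ha1 haK
  refine ⟨?_, ?_⟩
  · rintro ⟨u, p⟩
    have ht := HF_t_le s u K
    unfold addable up
    rw [Finset.mem_filter, HF_mem_base s K (by omega), HF_mem_base s K (by omega)]
    dsimp only
    constructor
    · rintro ⟨h1, h2⟩
      refine ⟨u, HF_t s K u - p, by omega, ?_⟩
      rw [HF_hk, Prod.mk.injEq]
      exact ⟨rfl, by omega⟩
    · rintro ⟨u', b, hb, h⟩
      rw [HF_hk, Prod.mk.injEq] at h
      obtain ⟨h1, h2⟩ := h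
      subst h1
      omega
  · intro u b hb
    have ht := HF_t_le s u K
    have hnp := HF_np hNPR s u K a ha1 haK b hb
    refine ⟨?_, ?_, hnp⟩
    · rw [HF_hk]
      unfold cnt
      have h : (base s K).filter (fun y => y.1 = (u, HF_t s K u - b).1 ∧
          (u, HF_t s K u - b).2 < y.2 ∧ y.2 < (u, HF_t s K u - b).2 + a) =
          (Finset.Ioc (HF_t s K u - b) (HF_t s K u)).image (fun p => (u, p)) := by
        ext ⟨v, p⟩
        rw [Finset.mem_filter, HF_mem_base s K (by omega), Finset.mem_image]
        simp only [Finset.mem_Ioc, Prod.mk.injEq]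
        constructor
        · rintro ⟨h1, h2, h3, h4⟩
          subst h2
          exact ⟨p, ⟨h3, h1⟩, rfl, rfl⟩
        · rintro ⟨p', ⟨h1, h2⟩, h3, h4⟩
          subst h3
          subst h4
          exact ⟨h2, rfl, h1, by omega⟩
      rw [h, Finset.card_image_of_injective _ (fun p p' hpp => (Prod.mk.inj hpp).2), Nat.card_Ioc]
      omega
    · rw [(hNPR a (base s K) (move a (base s K) (hk s u K b))).2.2]
      have e : np a (base s K) (move a (base s K) (hk s u K b)) = (a - 1).choose b := hnp
      rw [e]
      exact (Nat.choose_pos (by omega)).ne'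

end Pool.Agent.PN
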